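import Pool.Agent.Y516.OJ.Final
import Pool.Agent.Y516.OJ.AdFin

set_option autoImplicit false

/-!
# Set intersection queries: the space of structures that read one cell depending on all sets

A family of sets in two halves, of total size at most `N`, is preprocessed. The memory has `s` cells
of `w` bits, which may be *arbitrary* functions of the whole family, and in addition an unlimited
memory with arbitrary functions of the first half alone and of the second half alone. A query names
a set `i` of the first half and a set `j` of the second half and asks whether they intersect. One of
the `s` joint cells is read; its address may be an *arbitrary* function of `i`, `j`, of the first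
half and of public random bits. Then the query is answered by an arbitrary communication protocol of
at most `b` bits between the two halves; for instance, `T` adaptive probes of cells of the one-sided
memory are such a protocol with `b = w T`. If the error probability is at most `1 / (2 * 10 ^ 6)`,
then

  `N ^ 2 ≤ 10 ^ 20 * (b + l) ^ 2 * w ^ 3 * s`, where `l = ⌈2 log₂ N⌉`,

and `l = 0` suffices if the address is a function of `i`, `j` and the random bits only. So in this
model query time `T` needs space `N ^ 2 / (T ^ 2 polylog)`, and polylogarithmic query time needs
space `Ω~(N ^ 2)`, as in the conjecture. The universe of the hard families has only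
`O((b + l) ^ 2 w ^ 2)` elements.

In the starting result `TwoDimensionalTable` of this problem the cell is at the crossing of a row,
which depends on `i` and the first half, and a column, which depends on `j` and the second half.
Here the address may depend on `i`, `j` and the first half in an arbitrary way (but not on the
second half).
-/

namespace Pool.Agent.Results.MP_f326ae_lc.AdaptiveJointProbe

open Pool.Agent.Y516.OJ

/-- For all `N`, `w`, `b`, `l` there are `k` and `u` such that every random data structure with `s`
joint cells of `w` bits, one probe to a joint cell (its address is a function of the query and of
the first half) and protocols of `b` bits, which decides emptiness of the intersections for families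
of `2 k` subsets of a universe with `u` elements, of total size at most `N`, satisfies
`N ^ 2 ≤ 10 ^ 20 * (b + l) ^ 2 * w ^ 3 * s`, if `N ^ 2 ≤ 2 ^ l` or if the addresses do not depend on
the family. -/
theorem result (N w b l : ℕ) (hw : 1 ≤ w) (hb : 1 ≤ b) :
    ∃ k u : ℕ, u ≤ 2 * 10 ^ 14 * (b + l) ^ 2 * w ^ 2 ∧
      ∀ (s : ℕ) (Ω : Type) [Fintype Ω] (p : Ω → ℝ) (D : Ω → PairADS k u w s),
        (N ^ 2 ≤ 2 ^ l ∨ ∀ ω i j F F', (D ω).addr i j F = (D ω).addr i j F') →
        SolvesPairA b N p D → N ^ 2 ≤ 10 ^ 20 * (b + l) ^ 2 * w ^ 3 * s :=
  pair_ad coreThm adThm2 N w b l hw hb

end Pool.Agent.Results.MP_f326ae_lc.AdaptiveJointProbe
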