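import Pool.Agent.R617.LD.Read

/-!
# Set intersection: time times degree

A family of `m` subsets of a universe with `u` elements is given by its `m u` incidence bits. A
random data structure stores arbitrarily many cells of `w` bits; for given coins each bit of each
cell is a polynomial of degree at most `d` over `ZMod 2` in the incidence bits (for instance the
bits of a decision tree of depth `d`, or of any function of `d` bits, and for `d = 1` all parities).
A query `(i, j)` is answered by an adaptive program. See `Pool/Agent/R617/LD/Core.lean`.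
-/

set_option autoImplicit false

namespace Pool.Agent.Results.MP_f326ae_lc.DegreeMemory

open Finset Pool.Agent.R617.LD

variable {m u : ℕ}

/-- the set number `i` of the family with the incidence bits `x` -/
def S (x : Fin m × Fin u → ZMod 2) (i : Fin m) : Finset (Fin u) := univ.filter (fun c => x (i, c) = 1)

/-- the query `(i, j)` has a nonempty answer -/
def Meets (x : Fin m × Fin u → ZMod 2) (q : Fin m × Fin m) : Prop := (S x q.1 ∩ S x q.2).Nonempty

lemma mem_S {x : Fin m × Fin u → ZMod 2} {i : Fin m} {c : Fin u} : c ∈ S x i ↔ x (i, c) = 1 := by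
  simp [S]

lemma ne_one {a : ZMod 2} : a ≠ 1 ↔ a = 0 := by revert a; decide

/-- the free incidence bits -/
def Fr (x : Fin m × Fin u → ZMod 2) (i j : Fin m) (L : Finset (Fin u)) : Finset (Fin m × Fin u) :=
  ((S x j \ L).map ⟨fun c => (i, c), fun _ _ h => (Prod.mk.inj h).2⟩) ∪
    ((S x i \ L).map ⟨fun c => (j, c), fun _ _ h => (Prod.mk.inj h).2⟩)

lemma card_Fr (x : Fin m × Fin u → ZMod 2) {i j : Fin m} (hij : i ≠ j) (L : Finset (Fin u)) :
    (Fr x i j L).card = (S x j \ L).card + (S x i \ L).card := by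
  unfold Fr
  rw [Finset.card_union_of_disjoint, Finset.card_map, Finset.card_map]
  rw [Finset.disjoint_left]
  intro e h1 h2
  rw [Finset.mem_map] at h1 h2
  obtain ⟨c, -, rfl⟩ := h1
  obtain ⟨c', -, h⟩ := h2
  exact hij (Prod.mk.inj h).1.symm

lemma mem_Fr {x : Fin m × Fin u → ZMod 2} {i j : Fin m} {L : Finset (Fin u)} {e : Fin m × Fin u} :
    e ∈ Fr x i j L ↔ (e.1 = i ∧ e.2 ∈ S x j ∧ e.2 ∉ L) ∨ (e.1 = j ∧ e.2 ∈ S x i ∧ e.2 ∉ L) := by
  unfold Fr
  simp only [Finset.mem_union, Finset.mem_map, Finset.mem_sdiff]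
  constructor
  · rintro (⟨c, hc, rfl⟩ | ⟨c, hc, rfl⟩)
    · exact Or.inl ⟨rfl, hc⟩
    · exact Or.inr ⟨rfl, hc⟩
  · rintro (⟨rfl, hc⟩ | ⟨rfl, hc⟩)
    · exact Or.inl ⟨e.2, hc, rfl⟩
    · exact Or.inr ⟨e.2, hc, rfl⟩

/-- a change of free bits creates a common element outside `L` -/
lemma exists_new {x y : Fin m × Fin u → ZMod 2} {i j : Fin m} (hij : i ≠ j) {L : Finset (Fin u)}
    (hL : S x i ∩ S x j ⊆ L) (hy : ∀ v, v ∉ Fr x i j L → y v = x v) (hne : y ≠ x) :
    ∃ c, c ∈ S y i ∩ S y j ∧ c ∉ L := by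
  obtain ⟨e, he⟩ := Function.ne_iff.1 hne
  have heF : e ∈ Fr x i j L := by
    by_contra h
    exact he (hy e h)
  rcases mem_Fr.1 heF with ⟨h1, h2, h3⟩ | ⟨h1, h2, h3⟩
  · have h4 : e.2 ∉ S x i := fun h => h3 (hL (Finset.mem_inter.2 ⟨h, h2⟩))
    have h5 : (j, e.2) ∉ Fr x i j L := by
      intro h
      rcases mem_Fr.1 h with ⟨h6, -, -⟩ | ⟨-, h6, -⟩
      · exact hij h6.symm
      · exact h4 h6
    have h6 : x e = 0 := by
      have : e = (i, e.2) := by rw [← h1]
      rw [this]
      exact ne_one.1 (fun h => h4 (mem_S.2 h))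
    have h7 : y e = 1 := by
      by_contra h
      rw [← Ne, ne_one] at h
      exact he (h.trans h6.symm)
    refine ⟨e.2, ?_, h3⟩
    rw [Finset.mem_inter, mem_S, mem_S, hy _ h5]
    refine ⟨?_, mem_S.1 h2⟩
    rw [← h1]
    exact h7
  · have h4 : e.2 ∉ S x j := fun h => h3 (hL (Finset.mem_inter.2 ⟨h2, h⟩))
    have h5 : (i, e.2) ∉ Fr x i j L := by
      intro h
      rcases mem_Fr.1 h with ⟨-, h6, -⟩ | ⟨h6, -, -⟩
      · exact h4 h6
      · exact hij h6
    have h6 : x e = 0 := by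
      have : e = (j, e.2) := by rw [← h1]
      rw [this]
      exact ne_one.1 (fun h => h4 (mem_S.2 h))
    have h7 : y e = 1 := by
      by_contra h
      rw [← Ne, ne_one] at h
      exact he (h.trans h6.symm)
    refine ⟨e.2, ?_, h3⟩
    rw [Finset.mem_inter, mem_S, mem_S, hy _ h5]
    refine ⟨mem_S.1 h2, ?_⟩
    rw [← h1]
    exact h7

variable {Ω A : Type} {w : ℕ}

open Classical in
/-- listing -/
lemma list_bound [Fintype Ω] {d : ℕ} (D : DS Ω (Fin m × Fin u) A (Fin m × Fin m) (Finset (Fin u)) w)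
    (hd : D.DegreeLE d) (μ : Ω → ℝ) (hμ : IsProb μ)
    (hno : ∀ ω x q, S x q.1 ∩ S x q.2 ⊆ D.answer ω x q)
    (x : Fin m × Fin u → ZMod 2) {i j : Fin m} (hij : i ≠ j) (ε : ℝ)
    (hε : ∀ c, c ∉ S x i ∩ S x j →
      ∑ ω ∈ univ.filter (fun ω => c ∈ D.answer ω x (i, j)), μ ω ≤ ε) :
    (1 - ε) * (((S x i \ S x j).card : ℝ) + (S x j \ S x i).card) ≤
      d * w * ∑ ω, μ ω * (D.probes ω x (i, j) : ℝ) := by
  have h1 : ∀ ω, μ ω * (((S x j \ D.answer ω x (i, j)).card : ℝ) +
      (S x i \ D.answer ω x (i, j)).card) ≤ d * w * (μ ω * (D.probes ω x (i, j) : ℝ)) := by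
    intro ω
    have h2 := unique_bound D hd ω x (i, j) (Fr x i j (D.answer ω x (i, j))) (by
      intro y hy1 hy2
      by_contra hne
      obtain ⟨c, hc1, hc2⟩ := exists_new hij (hno ω x (i, j)) hy1 hne
      apply hc2
      rw [← hy2]
      exact hno ω y (i, j) hc1)
    rw [card_Fr x hij] at h2
    have h3 : ((S x j \ D.answer ω x (i, j)).card : ℝ) + (S x i \ D.answer ω x (i, j)).card ≤
        d * w * (D.probes ω x (i, j) : ℝ) := by exact_mod_cast h2
    calc _ ≤ μ ω * (d * w * (D.probes ω x (i, j) : ℝ)) :=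
          mul_le_mul_of_nonneg_left h3 (hμ.nonneg ω)
      _ = _ := by ring
  have h2 := Finset.sum_le_sum (fun ω (_ : ω ∈ (univ : Finset Ω)) => h1 ω)
  rw [← Finset.mul_sum] at h2
  refine le_trans ?_ h2
  -- the expected number of elements which are not listed
  have key : ∀ B B' : Finset (Fin u), B' ⊆ B → (∀ c ∈ B', c ∉ S x i ∩ S x j) →
      (1 - ε) * (B'.card : ℝ) ≤ ∑ ω, μ ω * ((B \ D.answer ω x (i, j)).card : ℝ) := by
    intro B B' hB hB'
    have e1 : ∀ ω, ∑ c ∈ B', (if c ∈ D.answer ω x (i, j) then (0 : ℝ) else 1) ≤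
        ((B \ D.answer ω x (i, j)).card : ℝ) := by
      intro ω
      rw [Finset.sum_ite, Finset.sum_const_zero, zero_add, Finset.sum_const, nsmul_eq_mul, mul_one]
      apply Nat.cast_le.2
      apply Finset.card_le_card
      intro c hc
      rw [Finset.mem_filter] at hc
      rw [Finset.mem_sdiff]
      exact ⟨hB hc.1, hc.2⟩
    have e2 : ∀ c ∈ B', (1 - ε) ≤ ∑ ω, μ ω * (if c ∈ D.answer ω x (i, j) then (0 : ℝ) else 1) := by
      intro c hc
      have e3 := hε c (hB' c hc)
      have e4 : ∑ ω, μ ω * (if c ∈ D.answer ω x (i, j) then (0 : ℝ) else 1) +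
          ∑ ω ∈ univ.filter (fun ω => c ∈ D.answer ω x (i, j)), μ ω = 1 := by
        rw [Finset.sum_filter, ← Finset.sum_add_distrib]
        refine Eq.trans ?_ hμ.sum_one
        apply Finset.sum_congr rfl
        intro ω _
        by_cases h : c ∈ D.answer ω x (i, j) <;> simp [h]
      linarith
    calc (1 - ε) * (B'.card : ℝ) = ∑ _c ∈ B', (1 - ε) := by
          rw [Finset.sum_const, nsmul_eq_mul, mul_comm]
      _ ≤ ∑ c ∈ B', ∑ ω, μ ω * (if c ∈ D.answer ω x (i, j) then (0 : ℝ) else 1) :=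
          Finset.sum_le_sum e2
      _ = ∑ ω, μ ω * ∑ c ∈ B', (if c ∈ D.answer ω x (i, j) then (0 : ℝ) else 1) := by
          rw [Finset.sum_comm]
          apply Finset.sum_congr rfl
          intro ω _
          rw [Finset.mul_sum]
      _ ≤ _ := by
          apply Finset.sum_le_sum
          intro ω _
          exact mul_le_mul_of_nonneg_left (e1 ω) (hμ.nonneg ω)
  have k1 := key (S x i) (S x i \ S x j) Finset.sdiff_subset (by
    intro c hc
    rw [Finset.mem_sdiff] at hc
    rw [Finset.mem_inter]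
    exact fun h => hc.2 h.2)
  have k2 := key (S x j) (S x j \ S x i) Finset.sdiff_subset (by
    intro c hc
    rw [Finset.mem_sdiff] at hc
    rw [Finset.mem_inter]
    exact fun h => hc.2 h.1)
  have k3 : ∑ ω, μ ω * (((S x j \ D.answer ω x (i, j)).card : ℝ) +
      (S x i \ D.answer ω x (i, j)).card) =
      ∑ ω, μ ω * ((S x j \ D.answer ω x (i, j)).card : ℝ) +
      ∑ ω, μ ω * ((S x i \ D.answer ω x (i, j)).card : ℝ) := by
    rw [← Finset.sum_add_distrib]
    apply Finset.sum_congr rfl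
    intro ω _
    ring
  rw [k3]
  linarith

open Classical in
/-- emptiness -/
lemma empty_bound [Fintype Ω] {d : ℕ} (D : DS Ω (Fin m × Fin u) A (Fin m × Fin m) Bool w)
    (hd : D.DegreeLE d) (μ : Ω → ℝ) (hμ : IsProb μ)
    (hno : ∀ ω x q, D.answer ω x q = false → ¬ Meets x q)
    (x : Fin m × Fin u → ZMod 2) {i j : Fin m} (hij : i ≠ j) (hx : ¬ Meets x (i, j)) (ε : ℝ)
    (hε : ∑ ω ∈ univ.filter (fun ω => D.answer ω x (i, j) = true), μ ω ≤ ε) :
    (1 - ε) * (((S x i).card : ℝ) + (S x j).card) ≤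
      d * w * ∑ ω, μ ω * (D.probes ω x (i, j) : ℝ) := by
  have hx0 : S x i ∩ S x j = ∅ := Finset.not_nonempty_iff_eq_empty.1 hx
  have h := expect_bound D hd μ hμ Meets hno x (i, j) (Fr x i j ∅) (by
    intro y hy1 hne
    obtain ⟨c, hc, -⟩ := exists_new hij (by rw [hx0]) hy1 hne
    exact ⟨c, hc⟩) ε hε
  rw [card_Fr x hij] at h
  simp only [Finset.sdiff_empty] at h
  push_cast at h
  linarith

/-! ## Upper bounds -/

/-- the polynomial `x_{ic} x_{jc}` -/
noncomputable def pr (q : Fin m × Fin m) (c : Fin u) : MvPolynomial (Fin m × Fin u) (ZMod 2) :=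
  MvPolynomial.X (q.1, c) * MvPolynomial.X (q.2, c)

lemma pr_degree (q : Fin m × Fin m) (c : Fin u) : (pr q c).totalDegree ≤ 2 := by
  unfold pr
  refine (MvPolynomial.totalDegree_mul _ _).trans ?_
  rw [MvPolynomial.totalDegree_X, MvPolynomial.totalDegree_X]

lemma pr_eval (q : Fin m × Fin m) (c : Fin u) (x : Fin m × Fin u → ZMod 2) :
    MvPolynomial.eval x (pr q c) ≠ 0 ↔ c ∈ S x q.1 ∩ S x q.2 := by
  unfold pr
  rw [map_mul, MvPolynomial.eval_X, MvPolynomial.eval_X, Finset.mem_inter, mem_S, mem_S]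
  generalize x (q.1, c) = a
  generalize x (q.2, c) = b
  revert a b
  decide

/-- the product over a block -/
noncomputable def blk (s : ℕ) (q : Fin m × Fin m) (b : ℕ) : MvPolynomial (Fin m × Fin u) (ZMod 2) :=
  ∏ c ∈ univ.filter (fun c : Fin u => (c : ℕ) / s = b), (1 + pr q c)

lemma blk_degree {s : ℕ} (hs : 0 < s) (q : Fin m × Fin m) (b : ℕ) :
    (blk (u := u) s q b).totalDegree ≤ 2 * s := by
  unfold blk
  refine (MvPolynomial.totalDegree_finsetProd _ _).trans ?_
  have h1 : ∀ c ∈ univ.filter (fun c : Fin u => (c : ℕ) / s = b), (1 + pr q c).totalDegree ≤ 2 := by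
    intro c _
    refine (MvPolynomial.totalDegree_add _ _).trans ?_
    rw [MvPolynomial.totalDegree_one]
    exact max_le (Nat.zero_le _) (pr_degree q c)
  refine (Finset.sum_le_sum h1).trans ?_
  rw [Finset.sum_const, smul_eq_mul, mul_comm]
  apply Nat.mul_le_mul_left
  have h2 : (univ.filter (fun c : Fin u => (c : ℕ) / s = b)).card ≤
      (Finset.Ico (b * s) (b * s + s)).card := by
    apply Finset.card_le_card_of_injOn (fun c : Fin u => (c : ℕ))
    · intro c hc
      rw [Finset.mem_coe, Finset.mem_filter] at hc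
      rw [Finset.mem_coe, Finset.mem_Ico, ← hc.2]
      beta_reduce
      have h3 := Nat.div_add_mod (c : ℕ) s
      have h4 := Nat.mod_lt (c : ℕ) hs
      rw [mul_comm] at h3
      omega
    · intro c _ c' _ h
      exact Fin.ext h
  rw [Nat.card_Ico] at h2
  omega

lemma blk_eval (s : ℕ) (q : Fin m × Fin m) (b : ℕ) (x : Fin m × Fin u → ZMod 2) :
    MvPolynomial.eval x (blk s q b) = 0 ↔ ∃ c : Fin u, (c : ℕ) / s = b ∧ c ∈ S x q.1 ∩ S x q.2 := by
  unfold blk
  rw [map_prod, Finset.prod_eq_zero_iff]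
  have h : ∀ a : ZMod 2, 1 + a = 0 ↔ a ≠ 0 := by decide
  constructor
  · rintro ⟨c, hc, h0⟩
    rw [Finset.mem_filter] at hc
    rw [map_add, map_one, h] at h0
    exact ⟨c, hc.2, (pr_eval q c x).1 h0⟩
  · rintro ⟨c, hc, h0⟩
    refine ⟨c, ?_, ?_⟩
    · rw [Finset.mem_filter]
      exact ⟨Finset.mem_univ _, hc⟩
    · rw [map_add, map_one, h]
      exact (pr_eval q c x).2 h0

open Classical in
/-- **Set intersection: time times degree.** `m` subsets `S x i` of a universe with `u` elements,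
given by their incidence bits `x`.

(1) Let a random data structure have arbitrarily many cells of `w` bits, each bit being (for given
coins) a polynomial of degree at most `d` over `ZMod 2` in the incidence bits, and let its answer to
a query `(i, j)` always contain the whole intersection. If on the family `x` no other element is
listed with probability more than `ε`, then the expected number of probes for the query `(i, j)` is
at least `(1 - ε) |S_i Δ S_j| / (d w)`.

(2) For the question whether two sets meet: if the answer disjoint (`false`) is never wrong and the answer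
meet (`true`) is wrong with probability at most `ε` on the disjoint sets `S_i`, `S_j` of the family `x`, the
expected number of probes is at least `(1 - ε) (|S_i| + |S_j|) / (d w)`.

(3) With cells of degree at most `2 s` it can be answered without errors by `u / (s w) + 1` probes.

(4) If the answer disjoint (`false`) may be wrong with probability `2 ^ (- w)` then one probe and `m ^ 2`
cells of degree `2` are sufficient. -/
theorem result (m u d w : ℕ) :
    (∀ (Ω A : Type) [Fintype Ω]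
      (D : DS Ω (Fin m × Fin u) A (Fin m × Fin m) (Finset (Fin u)) w) (μ : Ω → ℝ),
      D.DegreeLE d → IsProb μ → (∀ ω x q, S x q.1 ∩ S x q.2 ⊆ D.answer ω x q) →
      ∀ (x : Fin m × Fin u → ZMod 2) (i j : Fin m) (ε : ℝ), i ≠ j →
        (∀ c, c ∉ S x i ∩ S x j →
          ∑ ω ∈ univ.filter (fun ω => c ∈ D.answer ω x (i, j)), μ ω ≤ ε) →
        (1 - ε) * (((S x i \ S x j).card : ℝ) + (S x j \ S x i).card) ≤
          d * w * ∑ ω, μ ω * (D.probes ω x (i, j) : ℝ)) ∧
    (∀ (Ω A : Type) [Fintype Ω]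
      (D : DS Ω (Fin m × Fin u) A (Fin m × Fin m) Bool w) (μ : Ω → ℝ),
      D.DegreeLE d → IsProb μ → (∀ ω x q, D.answer ω x q = false → ¬ Meets x q) →
      ∀ (x : Fin m × Fin u → ZMod 2) (i j : Fin m) (ε : ℝ), i ≠ j → ¬ Meets x (i, j) →
        ∑ ω ∈ univ.filter (fun ω => D.answer ω x (i, j) = true), μ ω ≤ ε →
        (1 - ε) * (((S x i).card : ℝ) + (S x j).card) ≤
          d * w * ∑ ω, μ ω * (D.probes ω x (i, j) : ℝ)) ∧
    (∀ s : ℕ, 1 ≤ s → 1 ≤ w →
      ∃ (A : Type) (D : DS Unit (Fin m × Fin u) A (Fin m × Fin m) Bool w), D.DegreeLE (2 * s) ∧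
        ∀ (x : Fin m × Fin u → ZMod 2) (q : Fin m × Fin m),
          (D.answer () x q = true ↔ Meets x q) ∧ D.probes () x q = u / (s * w) + 1) ∧
    (∃ (Ω : Type) (_ : Fintype Ω) (D : DS Ω (Fin m × Fin u) (Fin m × Fin m) (Fin m × Fin m) Bool w),
      D.DegreeLE 2 ∧ ∀ (x : Fin m × Fin u → ZMod 2) (q : Fin m × Fin m),
        (∀ ω, D.probes ω x q = 1) ∧ (∀ ω, D.answer ω x q = true → Meets x q) ∧
        (Meets x q → 2 ^ w * (univ.filter (fun ω => D.answer ω x q = false)).card =
          Fintype.card Ω)) := by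
  refine ⟨?_, ?_, ?_, ?_⟩
  · intro Ω A _ D μ hd hμ hno x i j ε hij hε
    exact list_bound D hd μ hμ hno x hij ε hε
  · intro Ω A _ D μ hd hμ hno x i j ε hij hx hε
    exact empty_bound D hd μ hμ hno x hij hx ε hε
  · intro s hs hw
    refine ⟨_, table (blk s) w (u / (s * w) + 1), table_degree _ _ _ (blk_degree hs), ?_⟩
    intro x q
    refine ⟨?_, table_probes _ _ _ _ _⟩
    rw [table_answer _ hw]
    constructor
    · rintro ⟨b, -, hb⟩
      rw [blk_eval] at hb
      obtain ⟨c, -, hc⟩ := hb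
      exact ⟨c, hc⟩
    · rintro ⟨c, hc⟩
      refine ⟨(c : ℕ) / s, ?_, (blk_eval s q _ x).2 ⟨c, rfl, hc⟩⟩
      have h1 : (c : ℕ) / (s * w) < u / (s * w) + 1 :=
        Nat.lt_succ_of_le (Nat.div_le_div_right c.2.le)
      rw [← Nat.div_div_eq_div_mul] at h1
      exact (Nat.div_lt_iff_lt_mul hw).1 h1
  · obtain ⟨Ω, inst, D, h1, h2⟩ := exists_sketch (pr (m := m) (u := u)) w pr_degree
    refine ⟨Ω, inst, D, h1, fun x q => ?_⟩
    obtain ⟨h3, h4, h5⟩ := h2 x q
    refine ⟨h3, fun ω h => ?_, fun h => ?_⟩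
    · obtain ⟨c, hc⟩ := h4 ω h
      exact ⟨c, (pr_eval q c x).1 hc⟩
    · obtain ⟨c, hc⟩ := h
      exact h5 ⟨c, (pr_eval q c x).2 hc⟩

end Pool.Agent.Results.MP_f326ae_lc.DegreeMemory
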