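import Pool.Agent.R563.LB.Main

set_option autoImplicit false

/-!
# SetIntersection: space `N ^ (1 + 1 / t)` also with long private labels of the sets

The data structures consist of a common memory of `S` cells with `W` possible contents each
(`W = 2 ^ w` for words of `w` bits) and of a private label with `L` possible values
(`log₂ L` bits) for every set of the family. All contents of the cells and all labels are arbitrary
functions of the whole family. The query for the sets with the indices `i` and `j` knows `i`, `j` and
the labels of these two sets for free, and then it probes cells of the common memory adaptively. Only
the probes count; everything else (the computation, the dependence on the sizes) is free and may be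
not uniform. This contains the usual data structures with `S` words (`L = 1`), the labelling schemes
(no common memory), and all mixed forms, for example a separate preprocessing of every set into a
private block of polylogarithmically many words which may depend on all other sets, too.

We show: if pairs of sets are listed with at most `C (T + op)` probes and `C T < t + 1`, then

  `N ^ (1 + 1 / t) ≤ 10 ^ 12 t (N + S) (log₂ N) ^ 2 (log₂ L + t log₂ (N W)) ^ 3`.

For `t = 1` (pairs of disjoint sets are recognised with one probe) the common memory has `Ω~(N ^ 2)`
words even if every set has a private label of polylogarithmically many words which is read for free,
and for every constant `t` the space is at least `N ^ (1 + 1 / (4 t))` up to logarithmic factors even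
with labels of `N ^ (1 / (4 t))` bits. The case `L = 1` is the bound `CellProbeTradeoff` of the
starting files.

Proof. The sets are the graphs of `m` fixed functions `f j` which agree pairwise rarely and the
graphs of `m` unknown functions `g i`, from a universe with `q` to a universe with `q` elements. The cells
are sampled for one probe after the other (a random set of cells, and the cell which is most often
used by the queries for `i`), so that a small set of cells allows, together with the labels, to
execute many of the queries `(i, j)` for most `i`. The code of the family `g` consists of the contents
of these cells, of the set of the good `i` and of all `2 m` labels (only `2 m log₂ L` bits, since the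
label of a set is the same for all `m` queries about it); it determines for every good `i` many `j`
such that `g i` and `f j` are disjoint. Only a fraction `exp (- k / 2)` of all functions avoids `k` given
functions `f j`. The comparison of the numbers gives the bound.
-/

namespace Pool.Agent.Results.MP_f326ae_lc.PrivateLabels

open Pool.Agent.R563.LB

/-- For all `N` and all numbers `S` of cells, `W` of contents and `L` of labels, there are `m` and `u`
such that every data structure with private labels for families of `m` subsets of a universe with
`u` elements, which answers all queries about families of total size at most `N` correctly, with at
most `C (T + op)` probes, where `C T < t + 1`, satisfies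
`N ^ (1 + 1 / t) ≤ 10 ^ 12 t (N + S) (log₂ N) ^ 2 (log₂ L + t log₂ (N W)) ^ 3`. -/
theorem result (N S W L t : ℕ) (C T : ℝ) (hN : 2 ≤ N) (hW : 1 ≤ W) (hL : 1 ≤ L) (ht : 1 ≤ t)
    (hCT : C * T < t + 1) :
    ∃ m u : ℕ, ∀ D : LabelDS m u S W L, Works D N C T →
      (N : ℝ) ^ (1 + 1 / (t : ℝ)) ≤ 10 ^ 12 * t * (N + S) * (Real.logb 2 N) ^ 2 *
        (Real.logb 2 L + t * Real.logb 2 (N * W)) ^ 3 :=
  lab N S W L t C T hN hW hL ht hCT

end Pool.Agent.Results.MP_f326ae_lc.PrivateLabels
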