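import Pool.Agent.R563.TP.Core
import Pool.Agent.R563.TP.Good
import Pool.Agent.R563.TP.Par
import Pool.Agent.R563.TP.Set

set_option autoImplicit false

/-!
# SetIntersection: space `N ^ 2 / (2 ^ (6 w) polylog N)` for two adaptive probes of `w` bits

Data structures in the cell probe model: `S` cells with `W` possible contents each (`W = 2 ^ w` for
words of `w` bits), arbitrary preprocessing, adaptive queries, arbitrary computation (also not
uniform), randomised. For each family of sets of total size at most `N` and each pair of sets, with
probability at least `1 / 2 + δ` the intersection is listed correctly with at most `C (T + op)`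
probes, where `C T < 3`, so that at most two probes are made if the two sets are disjoint. Then

  `δ ^ 6 N ^ 2 ≤ 10 ^ 13 S W ^ 6 (log₂ (N / δ)) ^ 6`.

So the space is `N ^ (2 - o(1))` for words of `o(log N)` bits, and `Ω~(N ^ 2)` for words of
`O(log log N)` bits. The best bound for two probes so far was the bound `N ^ (3 / 2)` of cell
sampling (CellProbeTradeoff).

Proof. Let `u` be a little more than `k ^ 2 / S`, with `k u ≤ N`. The sets are `{e i}`, `i < k`, for
a random map `e` from `{1, …, k}` to `{1, …, u}`, and `k` random subsets `Y j` of the universe
`{1, …, u}`; the queries are the `k ^ 2` pairs `(i, j)`. The number of correct answers to the query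
'is `e i` in `Y j`' minus the number of wrong answers is a bilinear form: the vectors are the
indicator vectors of the contents of the memory, the matrix is a sum of matrices with random
signs, one for each class `(j, e i)` of queries. We estimate the norm of this matrix, with the rows and
columns weighted by the number of queries which use a cell, by the trace of a power of order
`log N`: the sequences of classes in which every class occurs an even number of times are few, since
(for most maps `e`) only few queries of one class use the same cell. No independence of the answers
of the `k ^ 2` queries is needed (there are only `k u` random bits).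
-/

namespace Pool.Agent.Results.MP_f326ae_lc.TwoShortProbes

open Pool.Agent.R563.TP

/-- For all `N` and all numbers of cells `S` and of contents `W` there are `m` and `u` such that for
every randomised data structure for families of `m` subsets of a universe with `u` elements which
lists the intersections for all families of total size at most `N` with at most `C (T + op)` probes,
`C T < 3`, with probability at least `1 / 2 + δ`, the bound
`δ ^ 6 N ^ 2 ≤ 10 ^ 13 S W ^ 6 (log₂ (N / δ)) ^ 6` holds. -/
theorem result (N S W : ℕ) (δ C T : ℝ) (hN : 2 ≤ N) (hS : 1 ≤ S) (hW : 1 ≤ W) (hδ : 0 < δ)
    (hδ2 : δ ≤ 1 / 2) (hCT : C * T < 3) :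
    ∃ m u : ℕ, ∀ (Ω : Type) [Fintype Ω] (p : Ω → ℝ) (D : Ω → SetDS m u S W),
      SetSolves p D N δ C T →
        δ ^ 6 * (N : ℝ) ^ 2 ≤ 10 ^ 13 * (S : ℝ) * (W : ℝ) ^ 6 * (Real.logb 2 (N / δ)) ^ 6 :=
  set (par good (core mom)) N S W δ C T hN hS hW hδ hδ2 hCT

end Pool.Agent.Results.MP_f326ae_lc.TwoShortProbes
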